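import Mathlib
import Pool.Agent.H604.FC.Final
import Pool.Agent.H524.FC.FullS

/-!
# The full Chowla conjecture over `F_q[X]`, `q` even, weights invariant under small shifts
-/

set_option autoImplicit false

namespace Pool.Agent.H524.FC

/-- **The full Chowla conjecture over `F_q[X]`, `q` even**, with square divisors and weights. -/
theorem s_fullS : S_fullS := asmS Pool.Agent.H604.FC.s_win5 Pool.Agent.H985.KP.typ2

end Pool.Agent.H524.FC
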