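import Mathlib
import Pool.Agent.H524.FC.FinalS

/-!
# The natural enumeration of `K[X]`: all initial segments
-/

set_option autoImplicit false
set_option linter.unusedSectionVars false

open scoped Classical
open Polynomial Finset Filter

namespace Pool.Agent.H524.FC

open Pool.Agent.H694.Typ (Mn mem_Mn card_Mn)
open Pool.Agent.H524.Cw

variable {K : Type} [Field K] [Fintype K]

/-- The polynomial whose coefficients are the digits of `n` to the base `q`, where the digit `i`
stands for `e i`. -/
noncomputable def pol (e : ℕ → K) (n : ℕ) : K[X] :=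
  ∑ i ∈ range n, C (e (n / Fintype.card K ^ i % Fintype.card K)) * X ^ i

theorem one_lt_q : 1 < Fintype.card K := Fintype.one_lt_card

theorem pol_coeff {e : ℕ → K} (he0 : e 0 = 0) (n i : ℕ) :
    (pol e n).coeff i = e (n / Fintype.card K ^ i % Fintype.card K) := by
  unfold pol
  simp only [finsetSum_coeff, coeff_C_mul, coeff_X_pow, mul_ite, mul_one, mul_zero]
  rw [Finset.sum_ite_eq]
  split_ifs with h
  · rfl
  · rw [Finset.mem_range, not_lt] at h
    have h1 : n < Fintype.card K ^ i := lt_of_lt_of_le (Nat.lt_pow_self one_lt_q)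
      (Nat.pow_le_pow_right (by have := one_lt_q (K := K); omega) h)
    rw [Nat.div_eq_of_lt h1, Nat.zero_mod, he0]

theorem pol_zero {e : ℕ → K} : pol e 0 = 0 := by simp [pol]

theorem pol_split {e : ℕ → K} (he0 : e 0 = 0) (r t s : ℕ) (hs : s < Fintype.card K ^ r) :
    pol e (Fintype.card K ^ r * t + s) = X ^ r * pol e t + pol e s := by
  have hq := one_lt_q (K := K)
  ext i
  rw [coeff_add, pol_coeff he0, pol_coeff he0, coeff_X_pow_mul']
  split_ifs with h
  · rw [pol_coeff he0]
    obtain ⟨j, rfl⟩ := Nat.exists_eq_add_of_le h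
    have h1 : (Fintype.card K ^ r * t + s) / Fintype.card K ^ (r + j) =
        t / Fintype.card K ^ j := by
      rw [pow_add, ← Nat.div_div_eq_div_mul, Nat.mul_add_div (by positivity),
        Nat.div_eq_of_lt hs, add_zero]
    have h2 : s / Fintype.card K ^ (r + j) = 0 :=
      Nat.div_eq_of_lt (lt_of_lt_of_le hs (Nat.pow_le_pow_right (by omega) (by omega)))
    rw [h1, h2, Nat.zero_mod, he0, add_zero, Nat.add_sub_cancel_left]
  · rw [zero_add]
    push Not at h
    obtain ⟨j, rfl⟩ := Nat.exists_eq_add_of_lt h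
    have h1 : (Fintype.card K ^ (i + j + 1) * t + s) / Fintype.card K ^ i =
        Fintype.card K * (Fintype.card K ^ j * t) + s / Fintype.card K ^ i := by
      have : Fintype.card K ^ (i + j + 1) * t =
          Fintype.card K ^ i * (Fintype.card K * (Fintype.card K ^ j * t)) := by ring
      rw [this, Nat.mul_add_div (by positivity)]
    rw [h1, Nat.mul_add_mod]

theorem pol_digit {e : ℕ → K} (he0 : e 0 = 0) {a : ℕ} (ha : a < Fintype.card K) :
    pol e a = C (e a) := by
  have hq := one_lt_q (K := K)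
  ext i
  rw [pol_coeff he0, coeff_C]
  split_ifs with h
  · subst h
    rw [pow_zero, Nat.div_one, Nat.mod_eq_of_lt ha]
  · have h2 : a / Fintype.card K ^ i = 0 :=
      Nat.div_eq_of_lt (lt_of_lt_of_le ha (Nat.le_self_pow h _))
    rw [h2, Nat.zero_mod, he0]

theorem pol_step {e : ℕ → K} (he0 : e 0 = 0) (n : ℕ) :
    pol e n = X * pol e (n / Fintype.card K) + C (e (n % Fintype.card K)) := by
  have hq := one_lt_q (K := K)
  have h1 := pol_split he0 1 (n / Fintype.card K) (n % Fintype.card K) (by
    rw [pow_one]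
    exact Nat.mod_lt _ (by omega))
  rw [pow_one, pow_one, Nat.div_add_mod, pol_digit he0 (Nat.mod_lt _ (by omega))] at h1
  exact h1

theorem pol_inj {e : ℕ → K} (he : Set.BijOn e (Set.Iio (Fintype.card K)) Set.univ)
    (he0 : e 0 = 0) : Function.Injective (pol e) := by
  have hq := one_lt_q (K := K)
  intro n
  induction n using Nat.strong_induction_on with
  | _ n ih =>
    intro m h
    rw [pol_step he0 n, pol_step he0 m] at h
    have h1 := congrArg (fun p : K[X] => p.coeff 0) h
    simp only [coeff_add, mul_coeff_zero, coeff_X_zero, zero_mul, zero_add, coeff_C_zero] at h1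
    have h2 : n % Fintype.card K = m % Fintype.card K :=
      he.injOn (Set.mem_Iio.2 (Nat.mod_lt _ (by omega))) (Set.mem_Iio.2 (Nat.mod_lt _ (by omega)))
        h1
    rw [h2, add_left_inj] at h
    have h3 := mul_left_cancel₀ X_ne_zero h
    rcases Nat.eq_zero_or_pos n with rfl | hn
    · -- `pol m = 0`
      by_contra hne
      have hm : 0 < m := Nat.pos_of_ne_zero (Ne.symm hne)
      -- the leading digit
      have hall : ∀ i, e (m / Fintype.card K ^ i % Fintype.card K) = 0 := by
        intro i
        rw [← pol_coeff he0, pol_step he0 m, ← h3, ← h2, Nat.zero_div, Nat.zero_mod, he0, pol_zero]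
        simp
      have hall' : ∀ i, m / Fintype.card K ^ i % Fintype.card K = 0 := by
        intro i
        exact he.injOn (Set.mem_Iio.2 (Nat.mod_lt _ (by omega))) (Set.mem_Iio.2 (by omega))
          ((hall i).trans he0.symm)
      have h5 := hall' (Nat.log (Fintype.card K) m)
      have h6 : Fintype.card K ^ Nat.log (Fintype.card K) m ≤ m := Nat.pow_log_le_self _ hm.ne'
      have h7 : m < Fintype.card K ^ (Nat.log (Fintype.card K) m + 1) := Nat.lt_pow_succ_log_self hq m
      have h8 : m / Fintype.card K ^ Nat.log (Fintype.card K) m < Fintype.card K := by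
        rw [Nat.div_lt_iff_lt_mul (by positivity)]
        rw [pow_succ] at h7
        linarith
      have h9 : 0 < m / Fintype.card K ^ Nat.log (Fintype.card K) m :=
        Nat.div_pos h6 (by positivity)
      rw [Nat.mod_eq_of_lt h8] at h5
      omega
    · have h4 := ih (n / Fintype.card K) (Nat.div_lt_self hn hq) h3
      rw [← Nat.div_add_mod n (Fintype.card K), ← Nat.div_add_mod m (Fintype.card K), h4, h2]

theorem pol_deg {e : ℕ → K} (he0 : e 0 = 0) {D s : ℕ} (hs : s < Fintype.card K ^ D) :
    (pol e s).degree < D := by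
  have hq := one_lt_q (K := K)
  rw [degree_lt_iff_coeff_zero]
  intro i hi
  rw [pol_coeff he0, Nat.div_eq_of_lt (lt_of_lt_of_le hs (Nat.pow_le_pow_right (by omega) hi)),
    Nat.zero_mod, he0]

theorem pol_surj {e : ℕ → K} (he : Set.BijOn e (Set.Iio (Fintype.card K)) Set.univ)
    (he0 : e 0 = 0) (D : ℕ) : ∀ g : K[X], g.degree < D → ∃ s < Fintype.card K ^ D, pol e s = g := by
  have hq := one_lt_q (K := K)
  induction D with
  | zero =>
    intro g hg
    refine ⟨0, by simp, ?_⟩
    rw [pol_zero]
    by_contra hne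
    have h1 := zero_le_degree_iff.2 (Ne.symm hne)
    rw [Nat.cast_zero] at hg
    exact absurd hg (not_lt.2 h1)
  | succ D ih =>
    intro g hg
    have h1 : g.divX.degree < D := by
      rw [degree_lt_iff_coeff_zero] at hg ⊢
      intro m hm
      rw [coeff_divX]
      exact hg (m + 1) (by omega)
    obtain ⟨s', hs', h2⟩ := ih g.divX h1
    obtain ⟨a, ha, h3⟩ := he.surjOn (Set.mem_univ (g.coeff 0))
    rw [Set.mem_Iio] at ha
    refine ⟨Fintype.card K * s' + a, ?_, ?_⟩
    · rw [pow_succ]
      calc Fintype.card K * s' + a < Fintype.card K * s' + Fintype.card K := by omega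
        _ = Fintype.card K * (s' + 1) := by ring
        _ ≤ Fintype.card K * Fintype.card K ^ D := Nat.mul_le_mul_left _ hs'
        _ = _ := by ring
    · have h4 := pol_split he0 1 s' a (by rwa [pow_one])
      rw [pow_one, pow_one] at h4
      rw [h4, h2, pol_digit he0 ha, h3]
      exact (X_mul_divX_add g)

/-- splitting a sum into blocks -/
theorem sum_blocks (M T : ℕ) (g : ℕ → ℝ) :
    ∑ n ∈ range (M * T), g n = ∑ t ∈ range T, ∑ s ∈ range M, g (M * t + s) := by
  induction T with
  | zero => simp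
  | succ T ih =>
    rw [Finset.sum_range_succ, ← ih, mul_add, mul_one, Finset.sum_range_add]

/-- The sums over all blocks of leading coefficients are small. -/
def Sm (φ : K[X] → ℝ) : Prop :=
  ∀ c : K, c ≠ 0 → ∀ ε : ℝ, 0 < ε → ∃ η : ℝ, 0 < η ∧ η < 1 ∧ ∃ N : ℕ, ∀ n : ℕ, N ≤ n →
    ∀ w : K[X] → ℝ, (∀ f, |w f| ≤ 1) →
      (∀ f v, (v.natDegree : ℝ) ≤ (1 - η) * n → w (f + v) = w f) →
      |∑ f ∈ Mn K n, w f * φ (C c * f)| ≤ ε * (Fintype.card K : ℝ) ^ n

theorem block {e : ℕ → K} (he : Set.BijOn e (Set.Iio (Fintype.card K)) Set.univ) (he0 : e 0 = 0)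
    (φ : K[X] → ℝ) {n' : ℕ} (hn' : n' ≠ 0) (D : ℕ) :
    ∑ s ∈ range (Fintype.card K ^ D), φ (pol e (Fintype.card K ^ D * n' + s)) =
      ∑ f ∈ Mn K (D + (pol e n').natDegree),
        (if (C (pol e n').leadingCoeff * f - X ^ D * pol e n').degree < (D : WithBot ℕ) then (1 : ℝ)
          else 0) *
          φ (C (pol e n').leadingCoeff * f) := by
  set P := pol e n' with hP
  have hP0 : P ≠ 0 := by
    intro h
    apply hn'
    apply pol_inj he he0
    rw [← hP, h, pol_zero]
  set c := P.leadingCoeff with hc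
  have hc0 : c ≠ 0 := leadingCoeff_ne_zero.2 hP0
  have hXD : (X ^ D * P).degree = (D : WithBot ℕ) + (P.natDegree : WithBot ℕ) := by
    rw [degree_mul, degree_X_pow, degree_eq_natDegree hP0]
  have hlt : ∀ g : K[X], g.degree < (D : WithBot ℕ) → g.degree < (X ^ D * P).degree := by
    intro g hg
    rw [hXD]
    refine lt_of_lt_of_le hg ?_
    exact_mod_cast Nat.le_add_right _ _
  have hCC : (C c⁻¹ : K[X]) * C c = 1 := by
    rw [← C_mul, inv_mul_cancel₀ hc0, C_1]
  have hCC' : (C c : K[X]) * C c⁻¹ = 1 := by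
    rw [mul_comm, hCC]
  simp only [ite_mul, one_mul, zero_mul]
  rw [← Finset.sum_filter]
  refine Finset.sum_bij (fun s _ => C c⁻¹ * (X ^ D * P + pol e s)) ?_ ?_ ?_ ?_
  · intro s hs
    rw [Finset.mem_range] at hs
    have h1 := hlt _ (pol_deg he0 hs)
    rw [Finset.mem_filter, mem_Mn]
    have h2 : (X ^ D * P + pol e s).natDegree = D + P.natDegree := by
      rw [natDegree_add_eq_left_of_degree_lt h1]
      exact natDegree_eq_of_degree_eq_some (by rw [hXD]; push_cast; rfl)
    have h3 : (X ^ D * P + pol e s).leadingCoeff = c := by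
      rw [leadingCoeff_add_of_degree_lt' h1, leadingCoeff_mul, leadingCoeff_X_pow, one_mul]
    refine ⟨⟨?_, ?_⟩, ?_⟩
    · rw [Monic, leadingCoeff_mul, leadingCoeff_C, h3, inv_mul_cancel₀ hc0]
    · rw [natDegree_C_mul (inv_ne_zero hc0), h2]
    · rw [← mul_assoc, hCC', one_mul, add_sub_cancel_left]
      exact pol_deg he0 hs
  · intro s _ s' _ h
    have h1 := mul_left_cancel₀ (C_ne_zero.2 (inv_ne_zero hc0)) h
    rw [add_right_inj] at h1
    exact pol_inj he he0 h1
  · intro f hf
    rw [Finset.mem_filter] at hf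
    obtain ⟨s, hs, h1⟩ := pol_surj he he0 D _ hf.2
    refine ⟨s, Finset.mem_range.2 hs, ?_⟩
    rw [h1, add_sub_cancel, ← mul_assoc, hCC, one_mul]
  · intro s hs
    rw [Finset.mem_range] at hs
    rw [pol_split he0 _ _ _ hs, ← hP, ← mul_assoc, hCC', one_mul]

theorem pol_natDegree_le {e : ℕ → K} (he0 : e 0 = 0) {J n : ℕ} (h : n < Fintype.card K ^ (J + 1)) :
    (pol e n).natDegree ≤ J := by
  have h1 := pol_deg he0 h
  by_cases h0 : pol e n = 0
  · rw [h0, natDegree_zero]
    exact Nat.zero_le _
  · rw [degree_eq_natDegree h0] at h1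
    have : (pol e n).natDegree < J + 1 := by exact_mod_cast h1
    omega

theorem init_seg {e : ℕ → K} (he : Set.BijOn e (Set.Iio (Fintype.card K)) Set.univ)
    (he0 : e 0 = 0) {φ : K[X] → ℝ} (hφ : ∀ f, |φ f| ≤ 1) (H : Sm φ) {ε : ℝ} (hε : 0 < ε) :
    ∃ N₀ : ℕ, ∀ N : ℕ, N₀ ≤ N → |∑ n ∈ range N, φ (pol e n)| ≤ ε * N := by
  have hq := one_lt_q (K := K)
  obtain ⟨q, hqd⟩ : ∃ q : ℝ, q = Fintype.card K := ⟨_, rfl⟩
  have hq1 : 1 < q := by rw [hqd]; exact_mod_cast hq
  have hq0 : 0 < q := by linarith
  obtain ⟨J, hJ⟩ := exists_pow_lt_of_lt_one (show (0 : ℝ) < ε / 4 by linarith)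
    (show 1 / q < 1 by rw [div_lt_one hq0]; exact hq1)
  have hJ' : (1 : ℝ) ≤ ε / 4 * q ^ J := by
    rw [one_div, inv_pow, inv_lt_iff_one_lt_mul₀ (by positivity)] at hJ
    linarith
  set ε' : ℝ := ε / (2 * q ^ (J + 1)) with hε'
  have hε'0 : 0 < ε' := by positivity
  have hcl : ∀ c : K, ∃ η : ℝ, 0 < η ∧ η < 1 ∧ ∃ N : ℕ, c ≠ 0 → ∀ n : ℕ, N ≤ n →
      ∀ w : K[X] → ℝ, (∀ f, |w f| ≤ 1) →
      (∀ f v, (v.natDegree : ℝ) ≤ (1 - η) * n → w (f + v) = w f) →
      |∑ f ∈ Mn K n, w f * φ (C c * f)| ≤ ε' * (Fintype.card K : ℝ) ^ n := by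
    intro c
    by_cases hc : c = 0
    · exact ⟨1 / 2, by norm_num, by norm_num, 0, fun h => absurd hc h⟩
    · obtain ⟨η, h1, h2, N, h3⟩ := H c hc ε' hε'0
      exact ⟨η, h1, h2, N, fun _ => h3⟩
  choose η hη0 hη1 N hN using hcl
  obtain ⟨c₀, -, hmin⟩ := (univ : Finset K).exists_min_image η ⟨0, Finset.mem_univ _⟩
  obtain ⟨m, hm⟩ := exists_nat_gt ((J : ℝ) / η c₀)
  set d₀ : ℕ := univ.sup N + J + m + 1 with hd₀
  refine ⟨Fintype.card K ^ d₀, fun n hn => ?_⟩
  have hn0 : n ≠ 0 := by
    have : 0 < Fintype.card K ^ d₀ := by positivity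
    omega
  set d := Nat.log (Fintype.card K) n with hd
  have hd1 : Fintype.card K ^ d ≤ n := Nat.pow_log_le_self _ hn0
  have hd2 : n < Fintype.card K ^ (d + 1) := Nat.lt_pow_succ_log_self hq n
  have hd3 : d₀ ≤ d := (Nat.le_log_iff_pow_le hq hn0).2 hn
  obtain ⟨D, hD⟩ : ∃ D, d = D + J := ⟨d - J, by omega⟩
  set N' := n / Fintype.card K ^ D with hN'
  have hN'1 : N' < Fintype.card K ^ (J + 1) := by
    rw [hN', Nat.div_lt_iff_lt_mul (by positivity), ← pow_add]
    have : J + 1 + D = d + 1 := by omega
    rw [this]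
    exact hd2
  have hsplit : n = Fintype.card K ^ D * N' + n % Fintype.card K ^ D :=
    (Nat.div_add_mod _ _).symm
  have hr : n % Fintype.card K ^ D < Fintype.card K ^ D := Nat.mod_lt _ (by positivity)
  have hdn : q ^ d ≤ n := by
    rw [hqd]
    exact_mod_cast hd1
  have hqD : q ^ D * q ^ J = q ^ d := by rw [← pow_add, hD]
  have hsmall : q ^ D ≤ ε / 4 * n := by
    calc q ^ D ≤ q ^ D * (ε / 4 * q ^ J) := by
          exact le_mul_of_one_le_right (by positivity) hJ'
      _ = ε / 4 * q ^ d := by rw [← hqD]; ring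
      _ ≤ ε / 4 * n := by gcongr
  -- the blocks
  have hblock : ∀ t ∈ range N', |∑ s ∈ range (Fintype.card K ^ D),
      φ (pol e (Fintype.card K ^ D * t + s))| ≤ ε' * q ^ d + if t = 0 then q ^ D else 0 := by
    intro t ht
    rw [Finset.mem_range] at ht
    split_ifs with ht0
    · refine (Finset.abs_sum_le_sum_abs _ _).trans ?_
      refine (Finset.sum_le_sum fun s _ => hφ _).trans ?_
      rw [Finset.sum_const, Finset.card_range, nsmul_eq_mul, mul_one]
      push_cast
      rw [hqd]
      have : 0 ≤ ε' * (Fintype.card K : ℝ) ^ d := by positivity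
      linarith
    · rw [add_zero, block he he0 φ ht0]
      have hP0 : pol e t ≠ 0 := by
        intro h
        apply ht0
        apply pol_inj he he0
        rw [h, pol_zero]
      have hdeg : (pol e t).natDegree ≤ J := pol_natDegree_le he0 (ht.trans hN'1)
      have h1 := hN (pol e t).leadingCoeff (leadingCoeff_ne_zero.2 hP0) (D + (pol e t).natDegree)
        (by
          have : N (pol e t).leadingCoeff ≤ univ.sup N := Finset.le_sup (Finset.mem_univ _)
          omega)
        (fun f => if (C (pol e t).leadingCoeff * f - X ^ D * pol e t).degree < (D : WithBot ℕ) then 1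
          else 0)
        (fun f => by
          split_ifs <;> simp)
        (fun f v hv => by
          have hvD : v.natDegree < D := by
            have h2 := hmin (pol e t).leadingCoeff (Finset.mem_univ _)
            have h3 := hη0 c₀
            have h4 := hη1 (pol e t).leadingCoeff
            have h5 : (D : ℝ) + (pol e t).natDegree ≤ D + J := by
              have : ((pol e t).natDegree : ℝ) ≤ J := by exact_mod_cast hdeg
              linarith
            have h6 : (J : ℝ) < η c₀ * m := by
              rw [div_lt_iff₀ h3] at hm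
              linarith
            have h7 : (m : ℝ) ≤ D + J := by exact_mod_cast (by omega : m ≤ D + J)
            have h8 : (v.natDegree : ℝ) < D := by
              push_cast at hv
              have h9 : (1 - η (pol e t).leadingCoeff) * (D + (pol e t).natDegree) ≤
                  (1 - η c₀) * (D + J) := by
                apply mul_le_mul (by linarith) h5 (by positivity) (by linarith)
              nlinarith
            exact_mod_cast h8
          have hvD' : (C (pol e t).leadingCoeff * v).degree < (D : WithBot ℕ) := by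
            rw [degree_C_mul (leadingCoeff_ne_zero.2 hP0)]
            exact lt_of_le_of_lt degree_le_natDegree (by exact_mod_cast hvD)
          congr 1
          rw [mul_add, add_sub_right_comm]
          apply propext
          constructor
          · intro h
            have h2 := lt_of_le_of_lt (degree_sub_le _ _) (max_lt h hvD')
            rwa [add_sub_cancel_right] at h2
          · intro h
            exact lt_of_le_of_lt (degree_add_le _ _) (max_lt h hvD'))
      refine h1.trans ?_
      rw [hqd]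
      apply mul_le_mul_of_nonneg_left _ hε'0.le
      apply pow_le_pow_right₀ (by rw [← hqd]; exact hq1.le)
      omega
  have htail : |∑ s ∈ range (n % Fintype.card K ^ D),
      φ (pol e (Fintype.card K ^ D * N' + s))| ≤ q ^ D := by
    refine (Finset.abs_sum_le_sum_abs _ _).trans ?_
    refine (Finset.sum_le_sum fun s _ => hφ _).trans ?_
    rw [Finset.sum_const, Finset.card_range, nsmul_eq_mul, mul_one, hqd]
    exact_mod_cast hr.le
  have hN'2 : (N' : ℝ) ≤ q ^ (J + 1) := by
    rw [hqd]
    exact_mod_cast hN'1.le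
  have htot : ∑ k ∈ range n, φ (pol e k) = ∑ t ∈ range N', ∑ s ∈ range (Fintype.card K ^ D),
      φ (pol e (Fintype.card K ^ D * t + s)) + ∑ s ∈ range (n % Fintype.card K ^ D),
      φ (pol e (Fintype.card K ^ D * N' + s)) := by
    rw [← sum_blocks _ _ (fun k => φ (pol e k)), ← Finset.sum_range_add (fun k => φ (pol e k)),
      ← hsplit]
  rw [htot]
  refine (abs_add_le _ _).trans ?_
  have hsum : |∑ t ∈ range N', ∑ s ∈ range (Fintype.card K ^ D),
      φ (pol e (Fintype.card K ^ D * t + s))| ≤ ε / 2 * n + ε / 4 * n := by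
    refine (Finset.abs_sum_le_sum_abs _ _).trans ?_
    refine (Finset.sum_le_sum hblock).trans ?_
    rw [Finset.sum_add_distrib, Finset.sum_const, Finset.card_range, nsmul_eq_mul,
      Finset.sum_ite_eq']
    have h1 : (N' : ℝ) * (ε' * q ^ d) ≤ ε / 2 * n := by
      calc (N' : ℝ) * (ε' * q ^ d) ≤ q ^ (J + 1) * (ε' * q ^ d) := by gcongr
        _ = ε / 2 * q ^ d := by
            rw [hε']
            field_simp
        _ ≤ ε / 2 * n := by gcongr
    have h2 : (if 0 ∈ range N' then q ^ D else 0) ≤ ε / 4 * n := by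
      split_ifs
      · exact hsmall
      · positivity
    linarith
  linarith

end Pool.Agent.H524.FC
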