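import Mathlib
import Pool.Agent.H524.FC.Enum

/-!
# The Liouville function along the natural enumeration of `K[X]`: correlations and blocks
-/

set_option autoImplicit false
set_option linter.unusedSectionVars false

open scoped Classical
open Polynomial Finset Filter

namespace Pool.Agent.H524.FC

open Pool.Agent.H694.Typ (Mn mem_Mn card_Mn)
open Pool.Agent.H524.Cw

variable {K : Type} [Field K] [Fintype K] [CharP K 2]

theorem sm_forms {J : Finset ℕ} (hJ : J.Nonempty) (r : ℕ) (b : ℕ → K[X])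
    (hb : Function.Injective b) : Sm (fun f : K[X] => ∏ j ∈ J, (lio (X ^ r * f + b j) : ℝ)) := by
  intro c hc ε hε
  haveI : Nonempty J := hJ.to_subtype
  have ha : ∀ _i : J, (X ^ r * C c : K[X]) ≠ 0 := fun _ =>
    mul_ne_zero (pow_ne_zero _ X_ne_zero) (C_ne_zero.2 hc)
  obtain ⟨η, h1, h2, N, h3⟩ := formsS (fullLioS (fullMobS_of s_fullS K))
    (fun _ : J => (X ^ r * C c : K[X])) (fun j : J => b j) ha (by
      intro i j hij
      rw [← mul_sub]
      refine mul_ne_zero (ha i) (sub_ne_zero.2 fun h => hij ?_)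
      exact Subtype.ext (hb h).symm) one_ne_zero hε
  refine ⟨η, h1, h2, N, fun n hn w hw hinv => ?_⟩
  have h4 := h3 n hn w ⟨hw, fun f => ⟨1, fun u hu => by rw [hinv f _ hu]; simp⟩⟩
  refine le_trans (le_of_eq ?_) h4
  congr 1
  refine Finset.sum_congr rfl fun f _ => ?_
  congr 1
  change ∏ j ∈ J, (lio (X ^ r * (C c * f) + b j) : ℝ) = _
  rw [← Finset.prod_coe_sort J]
  exact Finset.prod_congr rfl fun j _ => by rw [mul_assoc]

theorem corr {e : ℕ → K} (he : Set.BijOn e (Set.Iio (Fintype.card K)) Set.univ) (he0 : e 0 = 0)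
    {J : Finset ℕ} (hJ : J.Nonempty) :
    Tendsto (fun N : ℕ => (∑ n ∈ range N, ∏ j ∈ J, (lio (pol e (n + j)) : ℝ)) / N) atTop
      (nhds 0) := by
  have hq := one_lt_q (K := K)
  rw [Metric.tendsto_atTop]
  intro ε hε
  set g : ℕ → ℝ := fun n => ∏ j ∈ J, (lio (pol e (n + j)) : ℝ) with hg
  have hg1 : ∀ n, |g n| ≤ 1 := by
    intro n
    rw [hg]
    simp only
    rw [Finset.abs_prod]
    exact Finset.prod_le_one (fun _ _ => abs_nonneg _) fun _ _ => abs_lio _
  set m := J.sup id with hm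
  obtain ⟨r, hr⟩ := pow_unbounded_of_one_lt (8 * (m : ℝ) / ε) (show (1 : ℝ) < Fintype.card K by
    exact_mod_cast hq)
  set M := Fintype.card K ^ r with hM
  have hM0 : 0 < M := by positivity
  have hMr : 8 * (m : ℝ) / ε < M := by
    rw [hM]
    push_cast
    exact hr
  have hcl : ∀ s : ℕ, ∃ N : ℕ, ∀ T : ℕ, N ≤ T →
      |∑ t ∈ range T, ∏ j ∈ J, (lio (X ^ r * pol e t + pol e (s + j)) : ℝ)| ≤ ε / 8 * T := by
    intro s
    exact init_seg he he0 (φ := fun f => ∏ j ∈ J, (lio (X ^ r * f + pol e (s + j)) : ℝ))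
      (fun f => by
        rw [Finset.abs_prod]
        exact Finset.prod_le_one (fun _ _ => abs_nonneg _) fun _ _ => abs_lio _)
      (sm_forms hJ r (fun j => pol e (s + j)) (fun i j h => by
        have := pol_inj he he0 h
        omega)) (by positivity)
  choose N₁ hN₁ using hcl
  obtain ⟨N₂, hN₂⟩ := exists_nat_gt (8 * (M : ℝ) / ε)
  refine ⟨M * ((range M).sup N₁ + 1) + N₂ + 1, fun n hn => ?_⟩
  have hn0 : (0 : ℝ) < n := by
    exact_mod_cast (by omega : 0 < n)
  set T := n / M with hT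
  have hTn : n = M * T + n % M := (Nat.div_add_mod _ _).symm
  have hρ : n % M < M := Nat.mod_lt _ hM0
  have hT1 : (range M).sup N₁ ≤ T := by
    rw [hT, Nat.le_div_iff_mul_le hM0, mul_comm]
    refine le_trans (Nat.mul_le_mul_left M (Nat.le_succ _)) ?_
    have : (range M).sup N₁ + 1 = ((range M).sup N₁).succ := rfl
    rw [← this]
    omega
  have hTM : (M : ℝ) * T ≤ n := by
    have : M * T ≤ n := by omega
    exact_mod_cast this
  -- the sum over a residue class
  have hclass : ∀ s ∈ range M, |∑ t ∈ range T, g (M * t + s)| ≤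
      ε / 8 * T + if M ≤ s + m then (T : ℝ) else 0 := by
    intro s hs
    split_ifs with h
    · refine (Finset.abs_sum_le_sum_abs _ _).trans ?_
      refine (Finset.sum_le_sum fun t _ => hg1 _).trans ?_
      rw [Finset.sum_const, Finset.card_range, nsmul_eq_mul, mul_one]
      have : 0 ≤ ε / 8 * T := by positivity
      linarith
    · rw [add_zero]
      have h1 := hN₁ s T (le_trans (Finset.le_sup hs) hT1)
      refine le_trans (le_of_eq ?_) h1
      congr 1
      refine Finset.sum_congr rfl fun t _ => ?_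
      rw [hg]
      simp only
      refine Finset.prod_congr rfl fun j hj => ?_
      have hj' : j ≤ m := Finset.le_sup (f := id) hj
      rw [add_assoc, hM, pol_split he0 r t (s + j) (by rw [← hM]; omega)]
  have hbad : ((range M).filter (fun s => M ≤ s + m)).card ≤ m := by
    have h1 : (range M).filter (fun s => M ≤ s + m) ⊆ Finset.Ico (M - m) M := by
      intro s hs
      rw [Finset.mem_filter, Finset.mem_range] at hs
      rw [Finset.mem_Ico]
      omega
    refine (Finset.card_le_card h1).trans ?_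
    rw [Nat.card_Ico]
    omega
  have htot : ∑ k ∈ range n, g k = ∑ s ∈ range M, ∑ t ∈ range T, g (M * t + s) +
      ∑ s ∈ range (n % M), g (M * T + s) := by
    rw [Finset.sum_comm, ← sum_blocks, ← Finset.sum_range_add, ← hTn]
  have htail : |∑ s ∈ range (n % M), g (M * T + s)| ≤ M := by
    refine (Finset.abs_sum_le_sum_abs _ _).trans ?_
    refine (Finset.sum_le_sum fun s _ => hg1 _).trans ?_
    rw [Finset.sum_const, Finset.card_range, nsmul_eq_mul, mul_one]
    exact_mod_cast hρ.le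
  have hmain : |∑ s ∈ range M, ∑ t ∈ range T, g (M * t + s)| ≤ ε / 8 * n + ε / 8 * n := by
    refine (Finset.abs_sum_le_sum_abs _ _).trans ?_
    refine (Finset.sum_le_sum hclass).trans ?_
    rw [Finset.sum_add_distrib, Finset.sum_const, Finset.card_range, nsmul_eq_mul,
      ← Finset.sum_filter, Finset.sum_const, nsmul_eq_mul]
    have h1 : (M : ℝ) * (ε / 8 * T) ≤ ε / 8 * n := by
      calc (M : ℝ) * (ε / 8 * T) = ε / 8 * (M * T) := by ring
        _ ≤ ε / 8 * n := by gcongr
    have h2 : ((((range M).filter (fun s => M ≤ s + m)).card : ℝ)) * T ≤ ε / 8 * n := by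
      have h3 : ((((range M).filter (fun s => M ≤ s + m)).card : ℝ)) ≤ m := by exact_mod_cast hbad
      have h4 : (m : ℝ) ≤ ε / 8 * M := by
        rw [div_lt_iff₀ hε] at hMr
        linarith
      calc ((((range M).filter (fun s => M ≤ s + m)).card : ℝ)) * T ≤ (ε / 8 * M) * T := by
            gcongr
            exact h3.trans h4
        _ = ε / 8 * (M * T) := by ring
        _ ≤ ε / 8 * n := by gcongr
    linarith
  have hMn : (M : ℝ) ≤ ε / 8 * n := by
    have h1 : (N₂ : ℝ) ≤ n := by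
      exact_mod_cast (by omega : N₂ ≤ n)
    rw [div_lt_iff₀ hε] at hN₂
    nlinarith
  rw [dist_zero_right, norm_div, Real.norm_eq_abs, Real.norm_of_nonneg hn0.le, div_lt_iff₀ hn0]
  change |∑ k ∈ range n, g k| < ε * n
  rw [htot]
  refine lt_of_le_of_lt (abs_add_le _ _) ?_
  have : 0 < ε * n := by positivity
  linarith

theorem lio_pm {F : K[X]} (h : F ≠ 0) : lio F = 1 ∨ lio F = -1 := by
  have h1 := lio_self h
  exact mul_self_eq_one_iff.1 h1

/-- **Normality**: every block of length `m` has the limit frequency `2 ^ (-m)`. -/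
theorem normal {e : ℕ → K} (he : Set.BijOn e (Set.Iio (Fintype.card K)) Set.univ) (he0 : e 0 = 0)
    (m : ℕ) (s : Fin m → ℤ) (hs : ∀ j, s j = 1 ∨ s j = -1) :
    Tendsto (fun N : ℕ => (((range N).filter
      (fun n => ∀ j : Fin m, lio (pol e (n + 1 + j)) = s j)).card : ℝ) / N) atTop
      (nhds ((1 / 2) ^ m)) := by
  have hpol : ∀ n (j : Fin m), pol e (n + 1 + j) ≠ 0 := by
    intro n j h
    have := pol_inj he he0 (h.trans (pol_zero (e := e)).symm)
    omega
  have hind : ∀ n : ℕ, (if ∀ j : Fin m, lio (pol e (n + 1 + j)) = s j then (1 : ℝ) else 0) =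
      (1 / 2) ^ m * ∑ t ∈ (univ : Finset (Fin m)).powerset,
        (∏ j ∈ t, (s j : ℝ)) * ∏ j ∈ t, (lio (pol e (n + 1 + j)) : ℝ) := by
    intro n
    have h1 : ∀ j : Fin m, (if lio (pol e (n + 1 + j)) = s j then (1 : ℝ) else 0) =
        (1 / 2) * (1 + (s j : ℝ) * (lio (pol e (n + 1 + j)) : ℝ)) := by
      intro j
      rcases lio_pm (hpol n j) with h | h <;> rcases hs j with h' | h' <;> rw [h, h'] <;>
        norm_num
    have h2 : (∏ j : Fin m, if lio (pol e (n + 1 + (j : ℕ))) = s j then (1 : ℝ) else 0) =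
        if ∀ j : Fin m, lio (pol e (n + 1 + (j : ℕ))) = s j then (1 : ℝ) else 0 := by
      by_cases h : ∀ j : Fin m, lio (pol e (n + 1 + (j : ℕ))) = s j
      · rw [if_pos h]
        exact Finset.prod_eq_one fun j _ => if_pos (h j)
      · rw [if_neg h]
        push Not at h
        obtain ⟨j, hj⟩ := h
        exact Finset.prod_eq_zero (Finset.mem_univ j) (if_neg hj)
    rw [← h2, Finset.prod_congr rfl fun j _ => h1 j, Finset.prod_mul_distrib, Finset.prod_const,
      Finset.card_univ, Fintype.card_fin, Finset.prod_one_add]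
    congr 1
    exact Finset.sum_congr rfl fun t _ => Finset.prod_mul_distrib
  have hcount : ∀ N : ℕ, (((range N).filter
      (fun n => ∀ j : Fin m, lio (pol e (n + 1 + j)) = s j)).card : ℝ) / N =
      (1 / 2) ^ m * ∑ t ∈ (univ : Finset (Fin m)).powerset, (∏ j ∈ t, (s j : ℝ)) *
        ((∑ n ∈ range N, ∏ j ∈ t, (lio (pol e (n + 1 + j)) : ℝ)) / N) := by
    intro N
    rw [Finset.card_filter]
    push_cast
    rw [Finset.sum_congr rfl fun n _ => hind n, ← Finset.mul_sum, Finset.sum_comm, mul_div_assoc,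
      Finset.sum_div]
    congr 1
    refine Finset.sum_congr rfl fun t _ => ?_
    rw [← Finset.mul_sum, mul_div_assoc]
  simp only [hcount]
  have hlim : (1 / 2 : ℝ) ^ m = (1 / 2) ^ m * ∑ t ∈ (univ : Finset (Fin m)).powerset,
      (∏ j ∈ t, (s j : ℝ)) * (if t = ∅ then 1 else 0) := by
    simp
  suffices hkey : Tendsto (fun N : ℕ => (1 / 2 : ℝ) ^ m *
      ∑ t ∈ (univ : Finset (Fin m)).powerset, (∏ j ∈ t, (s j : ℝ)) *
        ((∑ n ∈ range N, ∏ j ∈ t, (lio (pol e (n + 1 + j)) : ℝ)) / N)) atTop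
      (nhds ((1 / 2) ^ m * ∑ t ∈ (univ : Finset (Fin m)).powerset,
      (∏ j ∈ t, (s j : ℝ)) * (if t = ∅ then 1 else 0))) by
    rwa [← hlim] at hkey
  refine Tendsto.const_mul _ (tendsto_finsetSum _ fun t _ => Tendsto.const_mul _ ?_)
  split_ifs with ht
  · subst ht
    refine tendsto_const_nhds.congr' ?_
    filter_upwards [eventually_gt_atTop 0] with N hN
    have : (N : ℝ) ≠ 0 := by exact_mod_cast hN.ne'
    simp [this]
  · have h1 := corr he he0 (J := t.image fun j : Fin m => 1 + (j : ℕ))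
      ((Finset.nonempty_iff_ne_empty.2 ht).image _)
    refine h1.congr fun N => ?_
    congr 1
    refine Finset.sum_congr rfl fun n _ => ?_
    rw [Finset.prod_image]
    · exact Finset.prod_congr rfl fun j _ => by rw [add_assoc]
    · intro i _ j _ h
      have h' : 1 + (i : ℕ) = 1 + (j : ℕ) := h
      exact Fin.ext (by omega)

/-- the number of monic polynomials in a residue class -/
theorem count_class {Q : K[X]} (hQ : Q ≠ 0) (r : K[X]) : ∃ N : ℕ, ∀ n : ℕ, N ≤ n →
    ∑ f ∈ Mn K n, (if Q ∣ f - r then (1 : ℝ) else 0) =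
      (Fintype.card K : ℝ) ^ n / (Fintype.card K : ℝ) ^ Q.natDegree := by
  have hq : (0 : ℝ) < Fintype.card K := by exact_mod_cast Fintype.card_pos
  obtain ⟨A, hA⟩ : ∃ A, A = Q * C Q.leadingCoeff⁻¹ := ⟨_, rfl⟩
  have hAm : A.Monic := by
    rw [hA]
    exact monic_mul_leadingCoeff_inv hQ
  have hAQ : A.natDegree = Q.natDegree := by
    rw [hA, natDegree_mul_C (inv_ne_zero (leadingCoeff_ne_zero.2 hQ))]
  have hdvd : ∀ g : K[X], Q ∣ g ↔ A ∣ g := by
    intro g
    have hu : IsUnit (C Q.leadingCoeff⁻¹ : K[X]) :=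
      isUnit_C.2 (isUnit_iff_ne_zero.2 (inv_ne_zero (leadingCoeff_ne_zero.2 hQ)))
    rw [hA]
    exact (hu.mul_right_dvd).symm
  refine ⟨Q.natDegree + r.natDegree + 1, fun n hn => ?_⟩
  have h1 := Pool.Agent.H524.Ext.sum_shift (n := n) (t := r) (by omega)
    (fun F => if Q ∣ F - r then (1 : ℝ) else 0)
  simp only [add_sub_cancel_right] at h1
  rw [← h1]
  simp only [hdvd]
  rw [← Finset.sum_filter, Pool.Agent.H524.Ext.sum_dvd hAm (by omega) (fun _ => (1 : ℝ)),
    Finset.sum_const, card_Mn, nsmul_eq_mul, mul_one, hAQ]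
  push_cast
  rw [eq_div_iff (by positivity), ← pow_add]
  congr 1
  omega

/-- **Sign patterns of linear forms in residue classes.** -/
theorem forms_freq (m : ℕ) (a b : Fin m → K[X]) (ha : ∀ i, a i ≠ 0)
    (hab : ∀ i j, i ≠ j → a i * b j - a j * b i ≠ 0) {Q : K[X]} (hQ : Q ≠ 0) (r : K[X])
    (s : Fin m → ℤ) (hs : ∀ j, s j = 1 ∨ s j = -1) :
    Tendsto (fun n : ℕ => (∑ f ∈ Mn K n,
      if Q ∣ f - r ∧ ∀ i, lio (a i * f + b i) = s i then (1 : ℝ) else 0) /
        (Fintype.card K : ℝ) ^ n) atTop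
      (nhds ((1 / 2) ^ m * (1 / (Fintype.card K : ℝ) ^ Q.natDegree))) := by
  have hq : (0 : ℝ) < Fintype.card K := by exact_mod_cast Fintype.card_pos
  set w : K[X] → ℝ := fun f => if Q ∣ f - r then 1 else 0 with hw
  obtain ⟨N₁, hN₁⟩ := count_class hQ r
  -- the sums over the subsets
  have hlim : ∀ t : Finset (Fin m), Tendsto (fun n : ℕ => (∑ f ∈ Mn K n,
      w f * ∏ j ∈ t, (lio (a j * f + b j) : ℝ)) / (Fintype.card K : ℝ) ^ n) atTop
      (nhds (if t = ∅ then 1 / (Fintype.card K : ℝ) ^ Q.natDegree else 0)) := by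
    intro t
    split_ifs with ht
    · subst ht
      refine tendsto_const_nhds.congr' ?_
      filter_upwards [eventually_ge_atTop N₁] with n hn
      simp only [Finset.prod_empty, mul_one]
      rw [hw, hN₁ n hn]
      field_simp
    · haveI : Nonempty t := (Finset.nonempty_iff_ne_empty.2 ht).to_subtype
      rw [Metric.tendsto_atTop]
      intro ε hε
      obtain ⟨η, -, -, N, hN⟩ := formsS (fullLioS (fullMobS_of s_fullS K))
        (fun i : t => a i) (fun i : t => b i) (fun i => ha i) (fun i j hij => hab i j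
          (fun h => hij (Subtype.ext h))) hQ (half_pos hε)
      refine ⟨N, fun n hn => ?_⟩
      have h1 := hN n hn w ⟨fun f => by
        rw [hw]
        simp only
        split_ifs <;> simp, fun f => ⟨1, fun u _ => by
          rw [hw]
          simp only [AddChar.one_apply, mul_one]
          congr 1
          apply propext
          have h2 : f + (∏ i : t, a i) * (Q * u) ^ 2 - r =
              f - r + Q * ((∏ i : t, a i) * (Q * u ^ 2)) := by ring
          rw [h2]
          exact dvd_add_left (dvd_mul_right _ _)⟩⟩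
      rw [dist_zero_right, norm_div, Real.norm_eq_abs, norm_pow, Real.norm_of_nonneg hq.le,
        div_lt_iff₀ (by positivity)]
      have h3 : ∑ f ∈ Mn K n, w f * ∏ j ∈ t, (lio (a j * f + b j) : ℝ) =
          ∑ f ∈ Mn K n, w f * ∏ i : t, (lio (a i * f + b i) : ℝ) := by
        refine Finset.sum_congr rfl fun f _ => ?_
        rw [← Finset.prod_coe_sort t]
      rw [h3]
      refine lt_of_le_of_lt h1 ?_
      have : (0 : ℝ) < (Fintype.card K : ℝ) ^ n := by positivity
      nlinarith
  obtain ⟨B, hB⟩ : ∃ B : ℕ, ∀ i, (b i).natDegree < B :=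
    ⟨(univ.sup fun i => (b i).natDegree) + 1, fun i => Nat.lt_succ_of_le
      (Finset.le_sup (f := fun i => (b i).natDegree) (Finset.mem_univ i))⟩
  have hind : ∀ n : ℕ, B ≤ n → ∀ f ∈ Mn K n,
      (if Q ∣ f - r ∧ ∀ i, lio (a i * f + b i) = s i then (1 : ℝ) else 0) =
      (1 / 2) ^ m * ∑ t ∈ (univ : Finset (Fin m)).powerset,
        (∏ j ∈ t, (s j : ℝ)) * (w f * ∏ j ∈ t, (lio (a j * f + b j) : ℝ)) := by
    intro n hn f hf
    rw [mem_Mn] at hf
    have hne : ∀ i, a i * f + b i ≠ 0 := by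
      intro i h
      have h1 : (a i * f).natDegree = (b i).natDegree := by
        rw [eq_neg_of_add_eq_zero_left h, natDegree_neg]
      rw [natDegree_mul (ha i) hf.1.ne_zero, hf.2] at h1
      have := hB i
      omega
    have h1 : ∀ j : Fin m, (if lio (a j * f + b j) = s j then (1 : ℝ) else 0) =
        (1 / 2) * (1 + (s j : ℝ) * (lio (a j * f + b j) : ℝ)) := by
      intro j
      rcases lio_pm (hne j) with h | h <;> rcases hs j with h' | h' <;> rw [h, h'] <;>
        norm_num
    have h2 : (∏ j : Fin m, if lio (a j * f + b j) = s j then (1 : ℝ) else 0) =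
        if ∀ j : Fin m, lio (a j * f + b j) = s j then (1 : ℝ) else 0 := by
      by_cases h : ∀ j : Fin m, lio (a j * f + b j) = s j
      · rw [if_pos h]
        exact Finset.prod_eq_one fun j _ => if_pos (h j)
      · rw [if_neg h]
        push Not at h
        obtain ⟨j, hj⟩ := h
        exact Finset.prod_eq_zero (Finset.mem_univ j) (if_neg hj)
    have h3 : (if Q ∣ f - r ∧ ∀ i, lio (a i * f + b i) = s i then (1 : ℝ) else 0) =
        w f * if ∀ j : Fin m, lio (a j * f + b j) = s j then (1 : ℝ) else 0 := by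
      rw [hw]
      by_cases h4 : Q ∣ f - r <;> by_cases h5 : ∀ j : Fin m, lio (a j * f + b j) = s j <;>
        simp [h4, h5]
    rw [h3, ← h2, Finset.prod_congr rfl fun j _ => h1 j, Finset.prod_mul_distrib,
      Finset.prod_const, Finset.card_univ, Fintype.card_fin, Finset.prod_one_add]
    rw [mul_left_comm, Finset.mul_sum]
    congr 1
    refine Finset.sum_congr rfl fun t _ => ?_
    rw [Finset.prod_mul_distrib]
    ring
  have hcount : ∀ n : ℕ, B ≤ n → (∑ f ∈ Mn K n,
      if Q ∣ f - r ∧ ∀ i, lio (a i * f + b i) = s i then (1 : ℝ) else 0) /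
        (Fintype.card K : ℝ) ^ n =
      (1 / 2) ^ m * ∑ t ∈ (univ : Finset (Fin m)).powerset, (∏ j ∈ t, (s j : ℝ)) *
        ((∑ f ∈ Mn K n, w f * ∏ j ∈ t, (lio (a j * f + b j) : ℝ)) /
          (Fintype.card K : ℝ) ^ n) := by
    intro n hn
    rw [Finset.sum_congr rfl (hind n hn), ← Finset.mul_sum, Finset.sum_comm, mul_div_assoc,
      Finset.sum_div]
    congr 1
    refine Finset.sum_congr rfl fun t _ => ?_
    rw [← Finset.mul_sum, mul_div_assoc]
  have hlim2 : (1 / 2 : ℝ) ^ m * (1 / (Fintype.card K : ℝ) ^ Q.natDegree) =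
      (1 / 2) ^ m * ∑ t ∈ (univ : Finset (Fin m)).powerset,
      (∏ j ∈ t, (s j : ℝ)) * (if t = ∅ then 1 / (Fintype.card K : ℝ) ^ Q.natDegree else 0) := by
    simp
  suffices hkey : Tendsto (fun n : ℕ => (1 / 2 : ℝ) ^ m *
      ∑ t ∈ (univ : Finset (Fin m)).powerset, (∏ j ∈ t, (s j : ℝ)) *
        ((∑ f ∈ Mn K n, w f * ∏ j ∈ t, (lio (a j * f + b j) : ℝ)) /
          (Fintype.card K : ℝ) ^ n)) atTop
      (nhds ((1 / 2) ^ m * ∑ t ∈ (univ : Finset (Fin m)).powerset,
      (∏ j ∈ t, (s j : ℝ)) * (if t = ∅ then 1 / (Fintype.card K : ℝ) ^ Q.natDegree else 0))) by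
    rw [hlim2]
    refine hkey.congr' ?_
    filter_upwards [eventually_ge_atTop B] with n hn
    exact (hcount n hn).symm
  exact Tendsto.const_mul _ (tendsto_finsetSum _ fun t _ => Tendsto.const_mul _ (hlim t))

end Pool.Agent.H524.FC
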