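import Mathlib
import Pool.Agent.H524.FC.FinalS

/-!
# Local higher-order uniformity over `K[X]`: the general argument
-/

set_option autoImplicit false
set_option linter.unusedSectionVars false

open scoped Classical ComplexConjugate
open Polynomial Finset Filter

namespace Pool.Agent.H524.FC

open Pool.Agent.H694.Typ (Mn mem_Mn card_Mn)
open Pool.Agent.H524.Cw
open Pool.Agent.H985.Chow.Asm (card_deg)

variable {K : Type} [Field K] [Fintype K]

/-- The average over the polynomials of degree less than `H`. -/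
noncomputable def av (H : ℕ) (F : K[X] → ℂ) : ℂ :=
  (∑ x : degreeLT K H, F x) / (Fintype.card K : ℂ) ^ H

/-- The multiplicative derivative. -/
noncomputable def dd (y : K[X]) (F : K[X] → ℂ) : K[X] → ℂ := fun x => F (x + y) * conj (F x)

/-- The averages of the multiplicative derivatives of order `k`. -/
noncomputable def UU (H : ℕ) : ℕ → (K[X] → ℂ) → ℂ
  | 0, F => av H F
  | k + 1, F => av H (fun y => UU H k (dd y F))

/-- Polynomial phases of degree less than `k`: the multiplicative derivatives of order `k` are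
equal to `1`. -/
def IsPhase : ℕ → (K[X] → ℂ) → Prop
  | 0, P => ∀ x, P x = 1
  | k + 1, P => ∀ y, IsPhase k (dd y P)

theorem qH_ne (H : ℕ) : (Fintype.card K : ℂ) ^ H ≠ 0 := by
  have : (Fintype.card K : ℂ) ≠ 0 := by exact_mod_cast Fintype.card_ne_zero
  exact pow_ne_zero _ this

theorem av_norm_pow (H m : ℕ) (F : K[X] → ℂ) :
    ‖av H F‖ ^ m ≤ (∑ x : degreeLT K H, ‖F x‖ ^ m) / (Fintype.card K : ℝ) ^ H := by
  have hq : (0 : ℝ) < (Fintype.card K : ℝ) ^ H := by
    have : (0 : ℝ) < Fintype.card K := by exact_mod_cast Fintype.card_pos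
    positivity
  have h1 : ‖av H F‖ ≤ ∑ x : degreeLT K H, ((Fintype.card K : ℝ) ^ H)⁻¹ * ‖F x‖ := by
    unfold av
    rw [norm_div, norm_pow, Complex.norm_natCast, ← Finset.mul_sum, inv_mul_eq_div]
    exact div_le_div_of_nonneg_right (norm_sum_le _ _) hq.le
  refine (pow_le_pow_left₀ (norm_nonneg _) h1 m).trans ?_
  refine (Real.pow_arith_mean_le_arith_mean_pow univ (fun _ => ((Fintype.card K : ℝ) ^ H)⁻¹)
    (fun x : degreeLT K H => ‖F x‖) (fun _ _ => by positivity) ?_ (fun _ _ => norm_nonneg _)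
    m).trans ?_
  · rw [Finset.sum_const, Finset.card_univ, card_deg, nsmul_eq_mul]
    push_cast
    exact mul_inv_cancel₀ hq.ne'
  · rw [← Finset.mul_sum, inv_mul_eq_div]

theorem av_sq (H : ℕ) (F : K[X] → ℂ) : ((‖av H F‖ ^ 2 : ℝ) : ℂ) = UU H 1 F := by
  have h1 : ((‖av H F‖ ^ 2 : ℝ) : ℂ) = av H F * conj (av H F) := by
    rw [Complex.mul_conj]
    norm_cast
    exact (Complex.normSq_eq_norm_sq _).symm
  rw [h1]
  change av H F * conj (av H F) = av H (fun y => av H (dd y F))
  unfold av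
  rw [map_div₀, map_pow, Complex.conj_natCast, map_sum, div_mul_div_comm, Finset.sum_mul_sum]
  simp only [dd]
  have h2 : ∑ i : degreeLT K H, ∑ j : degreeLT K H, F i * conj (F j) =
      ∑ y : degreeLT K H, ∑ x : degreeLT K H, F ((x : K[X]) + y) * conj (F x) := by
    rw [Finset.sum_comm]
    conv_rhs => rw [Finset.sum_comm]
    refine Finset.sum_congr rfl fun j _ => ?_
    exact (Fintype.sum_equiv (Equiv.addLeft j) _ _ fun y => rfl).symm
  rw [h2, ← Finset.sum_div, div_div]

theorem gcs (H : ℕ) (k : ℕ) : ∀ F : K[X] → ℂ,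
    ‖av H F‖ ^ (2 ^ (k + 1)) ≤ (UU H (k + 1) F).re := by
  induction k with
  | zero =>
    intro F
    rw [zero_add, pow_one, ← av_sq, Complex.ofReal_re]
  | succ k ih =>
    intro F
    have hq : (0 : ℝ) < (Fintype.card K : ℝ) ^ H := by
      have : (0 : ℝ) < Fintype.card K := by exact_mod_cast Fintype.card_pos
      positivity
    have h1 : ‖av H F‖ ^ 2 = ‖av H (fun y => av H (dd y F))‖ := by
      have h2 : ((‖av H F‖ ^ 2 : ℝ) : ℂ) = av H (fun y => av H (dd y F)) := av_sq H F
      rw [← h2, Complex.norm_real, Real.norm_of_nonneg (by positivity)]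
    rw [show 2 ^ (k + 1 + 1) = 2 * 2 ^ (k + 1) by ring, pow_mul, h1]
    refine (av_norm_pow H _ _).trans ?_
    have h3 : (UU H (k + 1 + 1) F).re =
        (∑ y : degreeLT K H, (UU H (k + 1) (dd y F)).re) / (Fintype.card K : ℝ) ^ H := by
      change (av H (fun y => UU H (k + 1) (dd y F))).re = _
      unfold av
      have h4 : ((Fintype.card K : ℂ)) ^ H = (((Fintype.card K : ℝ) ^ H : ℝ) : ℂ) := by push_cast; rfl
      rw [h4, Complex.div_ofReal_re, Complex.re_sum]
    rw [h3]
    exact div_le_div_of_nonneg_right (Finset.sum_le_sum fun y _ => ih _) hq.le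

theorem dd_mul (y : K[X]) (F G : K[X] → ℂ) :
    dd y (fun x => F x * G x) = fun x => dd y F x * dd y G x := by
  funext x
  simp only [dd, map_mul]
  ring

theorem UU_phase (H k : ℕ) : ∀ (g P : K[X] → ℂ), IsPhase k P →
    UU H k (fun x => g x * P x) = UU H k g := by
  induction k with
  | zero =>
    intro g P hP
    change av H _ = av H _
    congr 1
    funext x
    rw [hP x, mul_one]
  | succ k ih =>
    intro g P hP
    change av H _ = av H _
    congr 1
    funext y
    rw [dd_mul]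
    exact ih _ _ (hP y)

theorem IsPhase.shift {k : ℕ} : ∀ {P : K[X] → ℂ}, IsPhase k P → ∀ h : K[X],
    IsPhase k (fun x => P (h + x)) := by
  induction k with
  | zero =>
    intro P hP h x
    exact hP _
  | succ k ih =>
    intro P hP h y
    have h1 := ih (hP y) h
    have h2 : dd y (fun x => P (h + x)) = fun x => dd y P (h + x) := by
      funext x
      simp only [dd, add_assoc]
    rw [h2]
    exact h1

/-! ### Real functions -/

/-- the real version -/
noncomputable def avR (H : ℕ) (F : K[X] → ℝ) : ℝ :=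
  (∑ x : degreeLT K H, F x) / (Fintype.card K : ℝ) ^ H

/-- the real version -/
noncomputable def UR (H : ℕ) : ℕ → (K[X] → ℝ) → ℝ
  | 0, F => avR H F
  | k + 1, F => avR H (fun y => UR H k (fun x => F (x + y) * F x))

theorem UU_real (H k : ℕ) : ∀ g : K[X] → ℝ, UU H k (fun x => (g x : ℂ)) = (UR H k g : ℂ) := by
  induction k with
  | zero =>
    intro g
    change av H _ = ((avR H g : ℝ) : ℂ)
    unfold av avR
    push_cast
    rfl
  | succ k ih =>
    intro g
    change av H _ = ((avR H _ : ℝ) : ℂ)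
    unfold av avR
    push_cast
    congr 1
    refine Finset.sum_congr rfl fun y _ => ?_
    rw [← ih]
    congr 1
    funext x
    simp only [dd, Complex.conj_ofReal]
    push_cast
    rfl

theorem avR_le (H : ℕ) {F : K[X] → ℝ} (hF : ∀ x, |F x| ≤ 1) : |avR H F| ≤ 1 := by
  have hq : (0 : ℝ) < (Fintype.card K : ℝ) ^ H := by
    have : (0 : ℝ) < Fintype.card K := by exact_mod_cast Fintype.card_pos
    positivity
  unfold avR
  rw [abs_div, abs_of_pos hq, div_le_one hq]
  refine (Finset.abs_sum_le_sum_abs _ _).trans ?_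
  refine (Finset.sum_le_sum fun x _ => hF _).trans ?_
  rw [Finset.sum_const, Finset.card_univ, card_deg, nsmul_eq_mul, mul_one]
  push_cast
  exact le_rfl

theorem UR_le (H k : ℕ) : ∀ {F : K[X] → ℝ}, (∀ x, |F x| ≤ 1) → |UR H k F| ≤ 1 := by
  induction k with
  | zero =>
    intro F hF
    exact avR_le H hF
  | succ k ih =>
    intro F hF
    refine avR_le H fun y => ih fun x => ?_
    rw [abs_mul]
    exact mul_le_one₀ (hF _) (abs_nonneg _) (hF _)

/-- `a` has small correlations. -/
def Cor (a : K[X] → ℝ) : Prop :=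
  ∀ S : Finset K[X], S.Nonempty → ∀ δ : ℝ, 0 < δ → ∃ N : ℕ, ∀ n : ℕ, N ≤ n →
    |∑ f ∈ Mn K n, ∏ s ∈ S, a (f + s)| ≤ δ * (Fintype.card K : ℝ) ^ n

theorem avUR {a : K[X] → ℝ} (ha : ∀ f, |a f| ≤ 1) (hc : Cor a) (k : ℕ) : ∀ m : ℕ,
    ∃ C : ℝ, 0 ≤ C ∧ ∀ (H : ℕ) (S : Finset K[X]), S.Nonempty → S.card ≤ m → ∀ δ : ℝ, 0 < δ →
      ∃ N : ℕ, ∀ n : ℕ, N ≤ n →
        |∑ f ∈ Mn K n, UR H k (fun x => ∏ s ∈ S, a (f + x + s))| ≤
          (C / (Fintype.card K : ℝ) ^ H + δ) * (Fintype.card K : ℝ) ^ n := by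
  have hq0 : (0 : ℝ) < Fintype.card K := by exact_mod_cast Fintype.card_pos
  induction k with
  | zero =>
    intro m
    refine ⟨0, le_rfl, fun H S hS _ δ hδ => ?_⟩
    have hcl : ∀ x : degreeLT K H, ∃ N : ℕ, ∀ n : ℕ, N ≤ n →
        |∑ f ∈ Mn K n, ∏ s ∈ S, a (f + x + s)| ≤ δ * (Fintype.card K : ℝ) ^ n := by
      intro x
      obtain ⟨N, hN⟩ := hc (S.map (addLeftEmbedding (x : K[X]))) (hS.map) δ hδ
      refine ⟨N, fun n hn => ?_⟩
      have h1 := hN n hn
      simp only [Finset.prod_map, addLeftEmbedding_apply] at h1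
      simpa only [add_assoc] using h1
    choose N hN using hcl
    refine ⟨univ.sup N, fun n hn => ?_⟩
    have h1 : ∑ f ∈ Mn K n, UR H 0 (fun x => ∏ s ∈ S, a (f + x + s)) =
        (∑ x : degreeLT K H, ∑ f ∈ Mn K n, ∏ s ∈ S, a (f + x + s)) /
          (Fintype.card K : ℝ) ^ H := by
      rw [Finset.sum_comm, Finset.sum_div]
      rfl
    have hH : (0 : ℝ) < (Fintype.card K : ℝ) ^ H := by positivity
    rw [h1, abs_div, abs_of_pos hH, div_le_iff₀ hH, zero_div, zero_add]
    refine (Finset.abs_sum_le_sum_abs _ _).trans ?_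
    refine (Finset.sum_le_sum fun x _ => hN x n
      ((Finset.le_sup (Finset.mem_univ x)).trans hn)).trans ?_
    rw [Finset.sum_const, Finset.card_univ, card_deg, nsmul_eq_mul]
    push_cast
    rw [mul_comm]
  | succ k ih =>
    intro m
    obtain ⟨C, hC0, hC⟩ := ih (2 * m)
    refine ⟨C + m * m, by positivity, fun H S hS hSm δ hδ => ?_⟩
    have hH : (0 : ℝ) < (Fintype.card K : ℝ) ^ H := by positivity
    have hcl : ∀ y : degreeLT K H, ∃ N : ℕ, ∀ n : ℕ, N ≤ n →
        |∑ f ∈ Mn K n, UR H k (fun x => (∏ s ∈ S, a (f + (x + (y : K[X])) + s)) *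
          ∏ s ∈ S, a (f + x + s))| ≤
        (C / (Fintype.card K : ℝ) ^ H + δ +
          if Disjoint (S.map (addLeftEmbedding (y : K[X]))) S then 0 else 1) *
            (Fintype.card K : ℝ) ^ n := by
      intro y
      split_ifs with hd
      · obtain ⟨N, hN⟩ := hC H ((S.map (addLeftEmbedding (y : K[X]))).disjUnion S hd)
          (by
            obtain ⟨s, hs⟩ := hS
            exact ⟨s, Finset.mem_disjUnion.2 (Or.inr hs)⟩)
          (by
            rw [Finset.card_disjUnion, Finset.card_map]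
            omega) δ hδ
        refine ⟨N, fun n hn => ?_⟩
        have h1 := hN n hn
        simp only [Finset.prod_disjUnion, Finset.prod_map, addLeftEmbedding_apply] at h1
        rw [add_zero]
        simpa only [add_assoc] using h1
      · refine ⟨0, fun n _ => ?_⟩
        refine (Finset.abs_sum_le_sum_abs _ _).trans ?_
        have h1 : ∀ f ∈ Mn K n, |UR H k (fun x => (∏ s ∈ S, a (f + (x + (y : K[X])) + s)) *
            ∏ s ∈ S, a (f + x + s))| ≤ 1 := by
          intro f _
          refine UR_le H k fun x => ?_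
          rw [abs_mul, Finset.abs_prod, Finset.abs_prod]
          exact mul_le_one₀ (Finset.prod_le_one (fun _ _ => abs_nonneg _) fun _ _ => ha _)
            (Finset.prod_nonneg fun _ _ => abs_nonneg _)
            (Finset.prod_le_one (fun _ _ => abs_nonneg _) fun _ _ => ha _)
        refine (Finset.sum_le_sum h1).trans ?_
        rw [Finset.sum_const, card_Mn, nsmul_eq_mul, mul_one]
        push_cast
        have h2 : 0 ≤ C / (Fintype.card K : ℝ) ^ H := by positivity
        have h3 : (0 : ℝ) ≤ (Fintype.card K : ℝ) ^ n := by positivity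
        nlinarith
    choose N hN using hcl
    refine ⟨univ.sup N, fun n hn => ?_⟩
    have h1 : ∑ f ∈ Mn K n, UR H (k + 1) (fun x => ∏ s ∈ S, a (f + x + s)) =
        (∑ y : degreeLT K H, ∑ f ∈ Mn K n, UR H k (fun x => (∏ s ∈ S, a (f + (x + (y : K[X])) + s)) *
          ∏ s ∈ S, a (f + x + s))) / (Fintype.card K : ℝ) ^ H := by
      rw [Finset.sum_comm, Finset.sum_div]
      rfl
    have hn0 : (0 : ℝ) < (Fintype.card K : ℝ) ^ n := by positivity
    rw [h1, abs_div, abs_of_pos hH, div_le_iff₀ hH]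
    refine (Finset.abs_sum_le_sum_abs _ _).trans ?_
    refine (Finset.sum_le_sum fun y _ => hN y n
      ((Finset.le_sup (Finset.mem_univ y)).trans hn)).trans ?_
    rw [← Finset.sum_mul, Finset.sum_add_distrib, Finset.sum_const, Finset.card_univ, card_deg,
      nsmul_eq_mul]
    have hbad : ∑ y : degreeLT K H, (if Disjoint (S.map (addLeftEmbedding (y : K[X]))) S then
        (0 : ℝ) else 1) ≤ m * m := by
      have h2 : ∑ y : degreeLT K H, (if Disjoint (S.map (addLeftEmbedding (y : K[X]))) S then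
          (0 : ℝ) else 1) = (((univ : Finset (degreeLT K H)).filter
            (fun y : degreeLT K H =>
              ¬ Disjoint (S.map (addLeftEmbedding (y : K[X]))) S)).card : ℝ) := by
        rw [← Finset.sum_boole]
        exact Finset.sum_congr rfl fun y _ => by split_ifs <;> simp_all
      rw [h2]
      have h3 : ((univ : Finset (degreeLT K H)).filter
          (fun y : degreeLT K H => ¬ Disjoint (S.map (addLeftEmbedding (y : K[X]))) S)).card ≤
            (S ×ˢ S).card := by
        refine Finset.card_le_card_of_surjOn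
          (fun p : K[X] × K[X] => if h : p.1 - p.2 ∈ degreeLT K H then
            (⟨p.1 - p.2, h⟩ : degreeLT K H) else 0) ?_
        intro y hy
        rw [Finset.mem_coe, Finset.mem_filter, Finset.not_disjoint_iff] at hy
        obtain ⟨-, z, hz1, hz2⟩ := hy
        rw [Finset.mem_map] at hz1
        obtain ⟨s, hs, rfl⟩ := hz1
        rw [addLeftEmbedding_apply] at hz2
        refine ⟨((y : K[X]) + s, s), ?_, ?_⟩
        · rw [Finset.mem_coe, Finset.mem_product]
          exact ⟨hz2, hs⟩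
        · have h5 : (y : K[X]) + s - s ∈ degreeLT K H := by
            rw [add_sub_cancel_right]
            exact y.2
          simp only
          rw [dif_pos h5]
          exact Subtype.ext (add_sub_cancel_right _ _)
      rw [Finset.card_product] at h3
      have h4 : ((univ : Finset (degreeLT K H)).filter
          (fun y : degreeLT K H => ¬ Disjoint (S.map (addLeftEmbedding (y : K[X]))) S)).card ≤
            m * m :=
        h3.trans (Nat.mul_le_mul hSm hSm)
      exact_mod_cast h4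
    push_cast
    have h5 : ((Fintype.card K : ℝ) ^ H * (C / (Fintype.card K : ℝ) ^ H + δ) +
        ∑ y : degreeLT K H, (if Disjoint (S.map (addLeftEmbedding (y : K[X]))) S then
          (0 : ℝ) else 1)) ≤
        ((C + m * m) / (Fintype.card K : ℝ) ^ H + δ) * (Fintype.card K : ℝ) ^ H := by
      have h6 : ((C + m * m) / (Fintype.card K : ℝ) ^ H + δ) * (Fintype.card K : ℝ) ^ H =
          C + m * m + δ * (Fintype.card K : ℝ) ^ H := by
        field_simp
      have h7 : (Fintype.card K : ℝ) ^ H * (C / (Fintype.card K : ℝ) ^ H + δ) =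
          C + δ * (Fintype.card K : ℝ) ^ H := by
        field_simp
      rw [h6, h7]
      linarith
    calc _ ≤ (((C + m * m) / (Fintype.card K : ℝ) ^ H + δ) * (Fintype.card K : ℝ) ^ H) *
          (Fintype.card K : ℝ) ^ n := mul_le_mul_of_nonneg_right h5 hn0.le
      _ = _ := by ring

theorem IsPhase.succ {k : ℕ} : ∀ {P : K[X] → ℂ}, IsPhase k P → IsPhase (k + 1) P := by
  induction k with
  | zero =>
    intro P hP y x
    have h : dd y P x = P (x + y) * conj (P x) := rfl
    rw [h, hP, hP, map_one, mul_one]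
  | succ k ih =>
    intro P hP y
    exact ih (hP y)

theorem unif_fixed {a : K[X] → ℝ} (ha : ∀ f, |a f| ≤ 1) (hc : Cor a) (k : ℕ) {ε : ℝ}
    (hε : 0 < ε) : ∃ H₁ N₁ : ℕ, ∀ n : ℕ, N₁ ≤ n → ∀ P : K[X] → K[X] → ℂ,
      (∀ f, IsPhase k (P f)) →
      ∑ f ∈ Mn K n, ‖av H₁ (fun x => (a (f + x) : ℂ) * P f x)‖ ≤
        ε * (Fintype.card K : ℝ) ^ n := by
  have hq0 : (0 : ℝ) < Fintype.card K := by exact_mod_cast Fintype.card_pos
  have hq1 : (1 : ℝ) < Fintype.card K := by exact_mod_cast Fintype.one_lt_card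
  obtain ⟨C, hC0, hC⟩ := avUR ha hc (k + 1) 1
  set m := 2 ^ (k + 1) with hm
  have hm0 : m ≠ 0 := by positivity
  have hεm : 0 < ε ^ m := by positivity
  obtain ⟨H₁, hH₁⟩ := pow_unbounded_of_one_lt (2 * C / ε ^ m) hq1
  obtain ⟨N₁, hN₁⟩ := hC H₁ {0} (Finset.singleton_nonempty _) (by simp) (ε ^ m / 2)
    (by positivity)
  refine ⟨H₁, N₁, fun n hn P hP => ?_⟩
  have hn0 : (0 : ℝ) < (Fintype.card K : ℝ) ^ n := by positivity
  have hH0 : (0 : ℝ) < (Fintype.card K : ℝ) ^ H₁ := by positivity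
  have h1 := hN₁ n hn
  simp only [Finset.prod_singleton, add_zero] at h1
  have h2 : C / (Fintype.card K : ℝ) ^ H₁ ≤ ε ^ m / 2 := by
    rw [div_lt_iff₀ hεm] at hH₁
    rw [div_le_iff₀ hH0]
    linarith
  have h3 : ∀ f ∈ Mn K n, ‖av H₁ (fun x => (a (f + x) : ℂ) * P f x)‖ ^ m ≤
      UR H₁ (k + 1) (fun x => a (f + x)) := by
    intro f _
    refine (gcs H₁ k _).trans (le_of_eq ?_)
    rw [UU_phase H₁ (k + 1) _ _ (hP f).succ, UU_real, Complex.ofReal_re]
  have h4 : ∑ f ∈ Mn K n, ‖av H₁ (fun x => (a (f + x) : ℂ) * P f x)‖ ^ m ≤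
      ε ^ m * (Fintype.card K : ℝ) ^ n := by
    refine (Finset.sum_le_sum h3).trans ((le_abs_self _).trans (h1.trans ?_))
    exact mul_le_mul_of_nonneg_right (by linarith) hn0.le
  have h5 := Real.pow_arith_mean_le_arith_mean_pow (Mn K n)
    (fun _ => ((Fintype.card K : ℝ) ^ n)⁻¹)
    (fun f => ‖av H₁ (fun x => (a (f + x) : ℂ) * P f x)‖) (fun _ _ => by positivity)
    (by
      rw [Finset.sum_const, card_Mn, nsmul_eq_mul]
      push_cast
      exact mul_inv_cancel₀ hn0.ne') (fun _ _ => norm_nonneg _) m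
  rw [← Finset.mul_sum, ← Finset.mul_sum] at h5
  have h6 : (((Fintype.card K : ℝ) ^ n)⁻¹ *
      ∑ f ∈ Mn K n, ‖av H₁ (fun x => (a (f + x) : ℂ) * P f x)‖) ^ m ≤ ε ^ m := by
    refine h5.trans ?_
    rw [inv_mul_le_iff₀ hn0]
    linarith
  have h7 := (pow_le_pow_iff_left₀ (by positivity) hε.le hm0).1 h6
  rw [inv_mul_le_iff₀ hn0] at h7
  linarith

theorem av_av {H H₁ : ℕ} (h : H₁ ≤ H) (F : K[X] → ℂ) :
    av H F = av H (fun x => av H₁ (fun y => F (x + y))) := by
  unfold av
  rw [← Finset.sum_div, Finset.sum_comm]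
  have h1 : ∀ y : degreeLT K H₁, ∑ x : degreeLT K H, F ((x : K[X]) + y) =
      ∑ x : degreeLT K H, F x := by
    intro y
    have hy : (y : K[X]) ∈ degreeLT K H := by
      have := y.2
      rw [mem_degreeLT] at this ⊢
      exact lt_of_lt_of_le this (by exact_mod_cast h)
    exact Fintype.sum_equiv (Equiv.addRight (⟨y, hy⟩ : degreeLT K H)) _ _ fun x => rfl
  rw [Finset.sum_congr rfl fun y _ => h1 y, Finset.sum_const, Finset.card_univ, card_deg,
    nsmul_eq_mul]
  push_cast
  rw [mul_div_cancel_left₀ _ (qH_ne H₁)]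

/-- **Local higher-order uniformity.** -/
theorem unif {a : K[X] → ℝ} (ha : ∀ f, |a f| ≤ 1) (hc : Cor a) (k : ℕ) {ε : ℝ}
    (hε : 0 < ε) : ∃ H₀ : ℕ, ∀ H n : ℕ, H₀ ≤ H → H < n → ∀ P : K[X] → K[X] → ℂ,
      (∀ f, IsPhase k (P f)) →
      ∑ f ∈ Mn K n, ‖∑ x : degreeLT K H, (a (f + x) : ℂ) * P f x‖ ≤
        ε * (Fintype.card K : ℝ) ^ (n + H) := by
  have hq0 : (0 : ℝ) < Fintype.card K := by exact_mod_cast Fintype.card_pos
  obtain ⟨H₁, N₁, h⟩ := unif_fixed ha hc k hε
  refine ⟨H₁ + N₁, fun H n hH hn P hP => ?_⟩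
  have hH0 : (0 : ℝ) < (Fintype.card K : ℝ) ^ H := by positivity
  have h1 : ∀ f ∈ Mn K n, ‖∑ x : degreeLT K H, (a (f + x) : ℂ) * P f x‖ ≤
      ∑ y : degreeLT K H, ‖av H₁ (fun x => (a (f + ((y : K[X]) + x)) : ℂ) * P f ((y : K[X]) + x))‖ := by
    intro f _
    have h2 := av_norm_pow H 1
      (fun y => av H₁ (fun x => (a (f + ((y : K[X]) + x)) : ℂ) * P f ((y : K[X]) + x)))
    rw [← av_av (by omega : H₁ ≤ H) (fun x => (a (f + x) : ℂ) * P f x), pow_one] at h2
    simp only [pow_one] at h2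
    unfold av at h2
    rw [norm_div, norm_pow, Complex.norm_natCast, div_le_div_iff_of_pos_right hH0] at h2
    exact h2
  refine (Finset.sum_le_sum h1).trans ?_
  rw [Finset.sum_comm]
  have h3 : ∀ y : degreeLT K H,
      ∑ f ∈ Mn K n, ‖av H₁ (fun x => (a (f + ((y : K[X]) + x)) : ℂ) * P f ((y : K[X]) + x))‖ ≤
        ε * (Fintype.card K : ℝ) ^ n := by
    intro y
    have hy : (y : K[X]).natDegree < n := by
      have h4 := y.2
      rw [mem_degreeLT] at h4
      by_cases h0 : (y : K[X]) = 0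
      · rw [h0, natDegree_zero]
        omega
      · rw [degree_eq_natDegree h0] at h4
        have : (y : K[X]).natDegree < H := by exact_mod_cast h4
        omega
    have h4 := h n (by omega) (fun g x => P (g - y) ((y : K[X]) + x)) (fun g => (hP _).shift _)
    have h5 := Pool.Agent.H524.Ext.sum_shift hy
      (fun g => ‖av H₁ (fun x => (a (g + x) : ℂ) * P (g - y) ((y : K[X]) + x))‖)
    rw [← h5] at h4
    refine le_trans (le_of_eq ?_) h4
    refine Finset.sum_congr rfl fun f _ => ?_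
    simp only [add_sub_cancel_right, add_assoc]
  refine (Finset.sum_le_sum fun y _ => h3 y).trans ?_
  rw [Finset.sum_const, Finset.card_univ, card_deg, nsmul_eq_mul, pow_add]
  push_cast
  exact le_of_eq (by ring)

/-! ### The Liouville and the Möbius function -/

variable [CharP K 2]

theorem cor_lio : Cor (fun f : K[X] => (lio f : ℝ)) := by
  intro S hS δ hδ
  have : Nonempty S := hS.to_subtype
  obtain ⟨η, h1, h2, N, h3⟩ := (fullLioS (fullMobS_of s_fullS K)) S (fun s => (s : K[X])) 1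
    Subtype.val_injective one_ne_zero δ hδ
  refine ⟨N, fun n hn => ?_⟩
  have h4 := h3 n hn (fun _ => 1) ⟨fun _ => by simp, fun f => ⟨1, fun u _ => by simp⟩⟩
  refine le_trans (le_of_eq ?_) h4
  congr 1
  refine Finset.sum_congr rfl fun f _ => ?_
  rw [one_mul, ← Finset.prod_coe_sort S]

theorem cor_mob : Cor (fun f : K[X] => (Pool.Agent.H985.Chow.mob f : ℝ)) := by
  intro S hS δ hδ
  obtain ⟨ρ, h1, h2, N, h3⟩ := mobS (fullLioS (fullMobS_of s_fullS K))
    (fun i : Fin S.card => ((S.equivFin.symm i : S) : K[X]))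
    (fun i j h => S.equivFin.symm.injective (Subtype.ext h)) (fun _ => 1) (fun _ => Or.inl rfl)
    ⟨⟨0, hS.card_pos⟩, rfl⟩ one_ne_zero hδ
  refine ⟨N, fun n hn => ?_⟩
  have h4 := h3 n hn (fun _ => 1) ⟨fun _ => by simp, fun f => ⟨1, fun u _ => by simp⟩⟩
  refine le_trans (le_of_eq ?_) h4
  congr 1
  refine Finset.sum_congr rfl fun f _ => ?_
  rw [one_mul, ← Finset.prod_coe_sort S, ← Equiv.prod_comp S.equivFin.symm]
  simp only [pow_one]

end Pool.Agent.H524.FC
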